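import Pool.Agent.V8H93.RL.Final

/-!
MP_0aec2a_ag, Q1: the dual variety of a reciprocal linear space.

Let `ℓ_0, ..., ℓ_n` be linear forms on `ℂ^{d+1}` which span its dual and whose matroid is
connected. Then the dual variety of the reciprocal linear space `L^{-1}` is the zero locus of an
irreducible homogeneous polynomial `F` of degree `2 ^ d * β(L)`, and `F` divides every homogeneous
polynomial of positive degree which vanishes on the dual variety. So the dual variety is a
hypersurface and its degree is `2 ^ d * β(L)`.

Outline of the proof. For generic parameters `y_i`, `i ≠ 0`, the hyperplanes `(y_0, y_1, ...)`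
tangent at a torus point correspond to the critical points `t` of a function on the complement of
the arrangement. Their number is computed by deletion and contraction: one of the parameters is
specialised to zero along a place of an algebraically closed field, a solution specialises to a
solution for the deletion or for the contraction, and by Hensel's lemma each solution for the
deletion lifts in one way and each solution for the contraction in two ways. The values of `y_0` at
these points are integral over the ring of the other parameters, and are the distinct roots of the
polynomial `F`, which is therefore monic in `y_0` of degree `2 ^ d * β(L)`, and homogeneous.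
-/

set_option autoImplicit false

namespace Pool.Agent.Results.MP_0aec2a_ag.DualDegree

open MvPolynomial Module Pool.Agent.V8H93.RL

theorem result (d n : ℕ) (ℓ : Fin (n + 1) → Dual ℂ (Fin (d + 1) → ℂ))
    (hspan : Submodule.span ℂ (Set.range ℓ) = ⊤) (hconn : IsConnectedMatroid ℓ) :
    ∃ (D : ℕ) (F : MvPolynomial (Fin (n + 1)) ℂ),
      (D : ℤ) = 2 ^ d * betaInv ℓ ∧ 0 < D ∧ Irreducible F ∧ F.IsHomogeneous D ∧
      dualVariety (reciprocal ℓ) = {h | eval h.rep F = 0} ∧
      ∀ (k : ℕ) (G : MvPolynomial (Fin (n + 1)) ℂ), 0 < k → G.IsHomogeneous k →
        ((∀ h ∈ dualVariety (reciprocal ℓ), eval h.rep G = 0) ↔ F ∣ G) :=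
  main hspan hconn

end Pool.Agent.Results.MP_0aec2a_ag.DualDegree
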